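import Pool.Agent.Helper91.DG3.KCell

/-!
# Threads, K2: cells which meet have the same corners
-/

set_option autoImplicit false

namespace Pool.Agent.Helper58.DG3

open Pool.Agent.Helper18.RAC Complex

variable {V : Type*}

theorem KCell.sub {H : SimpleGraph V} {f : V → ℂ} {κ κ' : GX → V} {A B : Set ℂ} {x y x' y' : V}
    (hA : KCell H f κ A x y) (hB : KCell H f κ' B x' y') (nB : ∀ v, Cor κ v → f v ∉ B)
    (hne : (A ∩ B).Nonempty) : B ⊆ A := by
  intro z hz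
  by_contra hzA
  obtain ⟨w, hwA, hwB⟩ := hne
  obtain ⟨q, hqB, hqA⟩ := meets_frontier hB.pc hA.op ⟨w, hwB, hwA⟩ ⟨z, hz, hzA⟩
  obtain ⟨p, p', c, c', hp, hseg⟩ := hA.fr q hqA
  rcases hB.thr p p' q hp hseg hqB with h | h
  · exact nB p c h
  · exact nB p' c' h

/-- K2: cells which meet have the same corners -/
theorem KCell.meet {H : SimpleGraph V} {f : V → ℂ} {κ κ' : GX → V} {A B : Set ℂ} {x y x' y' : V}
    (hA : KCell H f κ A x y) (hB : KCell H f κ' B x' y') (nA : ∀ v, Cor κ' v → f v ∉ A)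
    (nB : ∀ v, Cor κ v → f v ∉ B) (hne : (A ∩ B).Nonempty) :
    (x = x' ∨ x = y') ∧ (y = x' ∨ y = y') ∧ (x' = x ∨ x' = y) ∧ (y' = x ∨ y' = y) := by
  have h1 : B ⊆ A := hA.sub hB nB hne
  have h2 : A ⊆ B := hB.sub hA nA (by rwa [Set.inter_comm])
  have h3 : A = B := h2.antisymm h1
  subst h3
  exact ⟨hB.fv x hA.hx, hB.fv y hA.hy, hA.fv x' hB.hx, hA.fv y' hB.hy⟩

end Pool.Agent.Helper58.DG3
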